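import Pool.Agent.L0h29.AL.Defs2

/-!
# Project AL, part 2: modules UNI, PRE and LOC
-/

set_option autoImplicit false

namespace Pool.Agent.L0h60.AL

open Pool.Agent.L0h29.AL

universe u

/-! ## UNI -/

theorem comm_cl {G : Type*} [Group G] {x : Bool → G} {z : G} (hz : ∀ τ, Commute z (x τ)) {f : G}
    (hf : f ∈ Subgroup.closure (Set.range x)) : Commute z f := by
  induction hf using Subgroup.closure_induction with
  | mem a ha => obtain ⟨τ, rfl⟩ := ha; exact hz τ
  | one => exact Commute.one_right z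
  | mul a b _ _ ha hb => exact ha.mul_right hb
  | inv a _ ha => exact ha.inv_right

theorem uni (hRIG : S_RIG.{u}) : S_UNI.{u} := by
  intro G _ S h h' a b c hU ha hb hc
  obtain ⟨f, hf, τ, ε, ε', rfl, rfl, rfl⟩ := hU
  have hU1 : S.U 1 ((f * S.x τ ^ (ε : ℤ) : G) : G ⧸ S.C) ((f : G) : G ⧸ S.C)
      ((f * S.x (!τ) ^ (ε' : ℤ) : G) : G ⧸ S.C) :=
    ⟨f, hf, τ, ε, ε', by rw [one_mul], by rw [one_mul], by rw [one_mul]⟩
  have hE : ∀ y : G, S.Ed h ((h' * y : G) : G ⧸ S.C) → S.Ed (h'⁻¹ * h) ((y : G) : G ⧸ S.C) := by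
    rintro y ⟨f1, hf1, h1⟩
    refine ⟨f1, hf1, ?_⟩
    rw [QuotientGroup.eq] at h1 ⊢
    have h2 : y⁻¹ * (h'⁻¹ * h * f1) = (h' * y)⁻¹ * (h * f1) := by group
    rw [h2]
    exact h1
  obtain ⟨z, hz, hzc, hzf⟩ := hRIG G S (h'⁻¹ * h) _ _ _ hU1
    (hE _ (by rw [← mul_assoc]; exact ha)) (hE _ hb) (hE _ (by rw [← mul_assoc]; exact hc))
  set f0 := z⁻¹ * (h'⁻¹ * h) with hf0
  have hh : h = h' * z * f0 := by rw [hf0]; group
  have hx : ∀ σ, S.x σ ∈ Subgroup.closure (Set.range S.x) := fun σ =>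
    Subgroup.subset_closure ⟨σ, rfl⟩
  have key : ∀ y ∈ Subgroup.closure (Set.range S.x),
      ((h' * y : G) : G ⧸ S.C) = ((h * (f0⁻¹ * y) : G) : G ⧸ S.C) := by
    intro y hy
    rw [QuotientGroup.eq]
    have h2 : (h' * y)⁻¹ * (h * (f0⁻¹ * y)) = y⁻¹ * (z * y) := by rw [hh]; group
    rw [h2, (comm_cl hzc hy).eq, inv_mul_cancel_left]
    exact hz
  refine ⟨f0⁻¹ * f, mul_mem (inv_mem hzf) hf, τ, ε, ε', ?_, key f hf, ?_⟩
  · rw [mul_assoc, key _ (mul_mem hf (zpow_mem (hx τ) _))]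
    simp only [mul_assoc]
  · rw [mul_assoc, key _ (mul_mem hf (zpow_mem (hx (!τ)) _))]
    simp only [mul_assoc]

/-! ## word length -/

section
variable {G : Type*} [Group G] {X : Set G}

theorem Wl_mono {g : G} {n m : ℕ} (h : Wl X g n) (hnm : n ≤ m) : Wl X g m := by
  obtain ⟨l, h1, h2, h3⟩ := h
  exact ⟨l, h1.trans hnm, h2, h3⟩

theorem Wl_mul {g h : G} {n m : ℕ} (h1 : Wl X g n) (h2 : Wl X h m) : Wl X (g * h) (n + m) := by
  obtain ⟨l, a1, a2, rfl⟩ := h1
  obtain ⟨l', b1, b2, rfl⟩ := h2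
  refine ⟨l ++ l', ?_, ?_, List.prod_append⟩
  · rw [List.length_append]; omega
  · intro a ha
    rcases List.mem_append.1 ha with h | h
    · exact a2 a h
    · exact b2 a h

theorem Wl_inv {g : G} {n : ℕ} (h : Wl X g n) : Wl X g⁻¹ n := by
  obtain ⟨l, a1, a2, rfl⟩ := h
  refine ⟨(l.map fun a => a⁻¹).reverse, ?_, ?_, ?_⟩
  · rw [List.length_reverse, List.length_map]; exact a1
  · intro a ha
    rw [List.mem_reverse, List.mem_map] at ha
    obtain ⟨b, hb, rfl⟩ := ha
    rw [inv_inv]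
    exact (a2 b hb).symm
  · rw [List.prod_inv_reverse]

end

/-! ## PRE -/

section
variable {G : Type*} [Group G]

theorem take_diff (L : List G) {i j : ℕ} (h : i ≤ j) :
    (L.take i).prod⁻¹ * (L.take j).prod = ((L.take j).drop i).prod := by
  have h1 : L.take i = (L.take j).take i := by rw [List.take_take, min_eq_left h]
  have h2 := List.take_append_drop i (L.take j)
  have h3 : (L.take j).prod = ((L.take j).take i).prod * ((L.take j).drop i).prod := by
    rw [← List.prod_append, h2]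
  rw [h1, h3, List.take_take, min_eq_left h, inv_mul_cancel_left]

/-- the cosets of the prefixes -/
def pf (C : Subgroup G) (L : List G) : List (G ⧸ C) :=
  (List.range (L.length + 1)).map fun i => (((L.take i).prod : G) : G ⧸ C)

end

theorem split_of_not_nodup {α : Type*} : ∀ l : List α, ¬ l.Nodup →
    ∃ (a : List α) (e : α) (b c : List α), l = a ++ e :: (b ++ e :: c)
  | [], h => absurd List.nodup_nil h
  | x :: l, h => by
    by_cases hx : x ∈ l
    · obtain ⟨b, c, rfl⟩ := List.append_of_mem hx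
      exact ⟨[], x, b, c, rfl⟩
    · have h1 : ¬ l.Nodup := fun h2 => h (List.nodup_cons.2 ⟨hx, h2⟩)
      obtain ⟨a, e, b, c, rfl⟩ := split_of_not_nodup l h1
      exact ⟨x :: a, e, b, c, rfl⟩

theorem nodup_pth (hSUB : S_SUB.{u}) {E : Type u} (T : ETree E) {p q : E} {l : List E}
    (h : Pth T.r p q l) : l.Nodup := by
  by_contra hn
  obtain ⟨a, e, b, c, rfl⟩ := split_of_not_nodup l hn
  have hS := (hSUB E T (fun _ _ _ => True)).2.2.1
  have h1 := (hS p q e a (b ++ e :: c) h).2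
  have h2 : e :: (b ++ e :: c) = (e :: b) ++ e :: c := rfl
  rw [h2] at h1
  have h3 := (hS e q e (e :: b) c h1).1
  have h4 := T.noloop _ _ h3
  have h5 := congrArg List.length h4
  simp at h5

theorem pre (hCRS : S_CRS.{u}) (hSUB : S_SUB.{u}) : S_PRE.{u} := by
  intro G _ S T hT g n hg l hl
  obtain ⟨L, hLn, hLX, rfl⟩ := hg
  have hchain : (pf S.C L).IsChain (fun a b => a = b ∨ ∃ τ, T.r τ a b) := by
    unfold pf
    rw [List.isChain_map, List.isChain_range_succ]
    intro i hi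
    refine Or.inr ?_
    have h1 : (L.take i.succ).prod = (L.take i).prod * L[i] := by
      rw [Nat.succ_eq_add_one, ← List.take_concat_get' L i hi, List.prod_append,
        List.prod_singleton]
    have h2 : L[i] ∈ L := List.getElem_mem hi
    have h3 : L[i] ∈ S.A true ∨ L[i] ∈ S.A false := by
      rcases hLX _ h2 with h | h
      · exact S.XA _ h
      · rcases S.XA _ h with h4 | h4
        · exact Or.inl (inv_mem_iff.1 h4)
        · exact Or.inr (inv_mem_iff.1 h4)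
    have h4 : ∀ τ, L[i] ∈ S.A τ → T.r τ (((L.take i).prod : G) : G ⧸ S.C)
        (((L.take i.succ).prod : G) : G ⧸ S.C) := by
      intro τ hτ
      rw [hT]
      unfold Amal.rel
      rw [Subgroup.quotientMapOfLE_apply_mk, Subgroup.quotientMapOfLE_apply_mk, QuotientGroup.eq,
        h1, inv_mul_cancel_left]
      exact hτ
    rcases h3 with h | h
    · exact ⟨true, h4 true h⟩
    · exact ⟨false, h4 false h⟩
  have hhead : (pf S.C L).head? = some ((1 : G) : G ⧸ S.C) := by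
    unfold pf
    rw [List.range_succ_eq_map]
    simp
  have hlast : (pf S.C L).getLast? = some ((L.prod : G) : G ⧸ S.C) := by
    unfold pf
    rw [List.range_succ]
    simp
  have hc := hCRS (G ⧸ S.C) T _ _ (pf S.C L) l hchain hhead hlast hl
  have hlen : l.length ≤ L.length + 1 := by
    have h1 := ((nodup_pth hSUB T hl).subperm hc).length_le
    unfold pf at h1
    simpa using h1
  have hidx : ∀ e : G ⧸ S.C, ∃ i : ℕ, e ∈ l → (((L.take i).prod : G) : G ⧸ S.C) = e := by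
    intro e
    by_cases he : e ∈ l
    · have h1 := hc e he
      unfold pf at h1
      rw [List.mem_map] at h1
      obtain ⟨i, _, hi⟩ := h1
      exact ⟨i, fun _ => hi⟩
    · exact ⟨0, fun h => absurd h he⟩
  choose idx hidx using hidx
  have hW : ∀ i j, i ≤ j → Wl S.X ((L.take i).prod⁻¹ * (L.take j).prod) n := by
    intro i j hij
    rw [take_diff L hij]
    refine ⟨(L.take j).drop i, ?_, ?_, rfl⟩
    · rw [List.length_drop, List.length_take]
      omega
    · intro a ha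
      exact hLX a (List.mem_of_mem_take (List.mem_of_mem_drop ha))
  refine ⟨by omega, fun e => (L.take (idx e)).prod, hidx, ?_, ?_⟩
  · intro e _
    have h := hW 0 (idx e) (Nat.zero_le _)
    rw [List.take_zero, List.prod_nil, inv_one, one_mul] at h
    exact h
  · intro e _ e' _
    rcases le_total (idx e) (idx e') with h | h
    · exact hW _ _ h
    · have h1 := Wl_inv (hW _ _ h)
      rw [mul_inv_rev, inv_inv] at h1
      exact h1

/-! ## LOC -/

theorem loc (hPRE : S_PRE.{u}) : S_LOC.{u} := by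
  intro G _ S T hT g n hg l hl h a b c ha hb hc hU
  obtain ⟨_, q, hq1, hq2, hq3⟩ := hPRE G S T hT g n hg l hl
  obtain ⟨f, hf, τ, ε, ε', ea, eb, ec⟩ := hU
  set cb := (q b)⁻¹ * (h * f) with hcb
  have hcbC : cb ∈ S.C := by
    rw [hcb, ← QuotientGroup.eq, hq1 b hb, eb]
  -- for both types an element of `C` near `cb`
  have key : ∀ (σ : Bool) (δ : ℤˣ) (e : G ⧸ S.C), e ∈ l →
      e = ((h * f * S.x σ ^ (δ : ℤ) : G) : G ⧸ S.C) →
      ∃ c1 ∈ S.C, Wl S.X c1 n ∧ c1⁻¹ * cb ∈ S.Z σ := by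
    intro σ δ e he hee
    have h1 : (h * f * S.x σ ^ (δ : ℤ))⁻¹ * q e ∈ S.C := by
      rw [← QuotientGroup.eq, hq1 e he, hee]
    refine S.r1 σ cb hcbC _ h1 δ n ?_
    have h2 : cb * S.x σ ^ (δ : ℤ) * ((h * f * S.x σ ^ (δ : ℤ))⁻¹ * q e) = (q b)⁻¹ * q e := by
      rw [hcb]; group
    rw [h2]
    exact hq3 b hb e he
  have key2 : ∀ σ : Bool, ∃ c1 ∈ S.C, Wl S.X c1 n ∧ c1⁻¹ * cb ∈ S.Z σ := by
    intro σ
    by_cases hσ : σ = τ
    · subst hσ; exact key σ ε a ha ea
    · have h1 : σ = !τ := by cases σ <;> cases τ <;> simp_all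
      subst h1
      exact key _ ε' c hc ec
  obtain ⟨cs, hcs, hcsW, hcsZ⟩ := key2 true
  obtain ⟨ct, hct, hctW, hctZ⟩ := key2 false
  have hy : cb⁻¹ * cs ∈ S.Z true := by
    have h1 := inv_mem hcsZ
    rw [mul_inv_rev, inv_inv] at h1
    exact h1
  have hyy : Wl S.X ((ct⁻¹ * cb) * (cb⁻¹ * cs)) (2 * n) := by
    have h1 : (ct⁻¹ * cb) * (cb⁻¹ * cs) = ct⁻¹ * cs := by group
    rw [h1, two_mul]
    exact Wl_mul (Wl_inv hctW) hcsW
  obtain ⟨y0, hy0, hy0W, hy0Z⟩ := S.r2 _ hctZ _ hy (2 * n) hyy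
  refine ⟨q b * ct * y0, ?_, y0⁻¹ * (ct⁻¹ * cb), S.Zc true hy0Z, ?_, f⁻¹, inv_mem hf, ?_⟩
  · have h1 := Wl_mul (Wl_mul (hq2 b hb) hctW) hy0W
    have h2 : n + n + 2 * n = 4 * n := by ring
    rw [h2] at h1
    exact h1
  · intro σ
    cases σ
    · exact S.Zx false _ (mul_mem (inv_mem hy0) hctZ)
    · exact S.Zx true _ hy0Z
  · rw [hcb]; group

end Pool.Agent.L0h60.AL
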